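import Pool.Agent.helper67.TSC.Spec

/-!
# Project ts:, CNB3: the main inequality
-/

set_option autoImplicit false

open Finset

noncomputable section

namespace Pool.Agent.TSC

open Pool.Agent.EP

theorem CNB3_pairs (S : Finset ℕ) (X : ℕ) (P : ℕ → ℕ → Prop) :
    ∑ k ∈ S, Set.ncard {n : ℕ | n ≤ X ∧ P k n} =
      Set.ncard {x : ℕ × ℕ | x.1 ∈ S ∧ x.2 ≤ X ∧ P x.1 x.2} := by
  classical
  have h1 : ∀ k, {n : ℕ | n ≤ X ∧ P k n} = ↑((range (X + 1)).filter (fun n => P k n)) := by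
    intro k
    ext n
    simp [Nat.lt_succ_iff]
  have h2 : {x : ℕ × ℕ | x.1 ∈ S ∧ x.2 ≤ X ∧ P x.1 x.2} =
      ↑((S ×ˢ range (X + 1)).filter (fun x => P x.1 x.2)) := by
    ext ⟨k, n⟩
    simp [Nat.lt_succ_iff, and_assoc]
  rw [h2, Set.ncard_coe_finset]
  simp_rw [h1, Set.ncard_coe_finset]
  rw [Finset.card_filter, Finset.sum_product]
  refine Finset.sum_congr rfl fun k _ => ?_
  rw [Finset.card_filter]

theorem CNB3 (hEVB : EVB3_stmt) (hXT : XT1_stmt) (hXB : XB3_stmt) (hLT : LTY3_stmt)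
    (hRT : RTY3_stmt) : CNB3_stmt := by
  intro e f a y K X D N R he hf ha hy hKy hR hD hN
  have hL := hLT f a K X D hD
  have hRr := hRT e a y K X D ha hD
  have hR' : Set.ncard {x : ℕ × ℕ | x.1 ∈ PM K ∧ x.2 ≤ X ∧ (SpK a y x.1 x.2 ∧ VR e a x.1 x.2)} ≤
      2 * D ^ 2 * (Nat.sqrt (2 * K * 2 ^ a) / 2 ^ (a - 1) + 1) * sN e (2 * K * 2 ^ a * X) := hRr
  rw [← CNB3_pairs (PM K) X (fun k n => VL f a k n)] at hL
  rw [← CNB3_pairs (PM K) X (fun k n => SpK a y k n ∧ VR e a k n)] at hR'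
  have hL2 : ∑ k ∈ R, Set.ncard {n : ℕ | n ≤ X ∧ VL f a k n} ≤
      ∑ k ∈ PM K, Set.ncard {n : ℕ | n ≤ X ∧ VL f a k n} :=
    Finset.sum_le_sum_of_subset hR
  have hR2 : ∑ k ∈ R, Set.ncard {n : ℕ | n ≤ X ∧ (SpK a y k n ∧ VR e a k n)} ≤
      ∑ k ∈ PM K, Set.ncard {n : ℕ | n ≤ X ∧ (SpK a y k n ∧ VR e a k n)} :=
    Finset.sum_le_sum_of_subset hR
  have key : ∀ k ∈ R, N ≤ (Nat.sqrt (8 * X + 1) + 1 +
      2 * (Nat.sqrt (2 * K * 2 ^ a) + 1) * (X / y + 1)) +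
      Set.ncard {n : ℕ | n ≤ X ∧ VL f a k n} +
      Set.ncard {n : ℕ | n ≤ X ∧ (SpK a y k n ∧ VR e a k n)} := by
    intro k hk
    have hkM := hR hk
    unfold PM at hkM
    rw [Finset.mem_filter, Finset.mem_Ioc] at hkM
    obtain ⟨⟨-, hk2⟩, hkp, hkm⟩ := hkM
    have h0 := hN k hk
    have hA := hXT X
    have hB := hXB a y k K X hy hk2 hKy
    have hfin : ∀ P : ℕ → Prop, {n : ℕ | n ≤ X ∧ P n}.Finite := fun P =>
      (Set.finite_Iic X).subset (fun n hn => hn.1)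
    have hsub : {n : ℕ | n ≤ X ∧ SpK a y k n ∧
        ((1 - f) * #(rs (2 ^ a) n) + (1 - e) * #(ws (k * 2 ^ a))) % 2 = 1} ⊆
        (({n : ℕ | n ≤ X ∧ XT n} ∪ {n : ℕ | n ≤ X ∧ 2 ^ a < 24 * n + 3 ∧ XB a y k n}) ∪
          {n : ℕ | n ≤ X ∧ VL f a k n}) ∪
          {n : ℕ | n ≤ X ∧ (SpK a y k n ∧ VR e a k n)} := by
      rintro n ⟨hnX, hSp, hpar⟩
      have hgt : 2 ^ a < 24 * n + 3 := by
        obtain ⟨p₁, p₂, hp₁, hp₂, _, _, _, _, hn⟩ := hSp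
        rw [hn]
        have : 0 < r0 a * p₁ * p₂ := by
          have hr : 0 < r0 a := by unfold r0; split_ifs <;> norm_num
          exact Nat.mul_pos (Nat.mul_pos hr hp₁.pos) hp₂.pos
        omega
      by_cases h1 : XT n
      · left; left; left; exact ⟨hnX, h1⟩
      by_cases h2 : XB a y k n
      · left; left; right; exact ⟨hnX, hgt, h2⟩
      rcases hEVB e f a y k n he hf ha hkp hkm hSp h1 h2 hpar with h5 | h5
      · left; right; exact ⟨hnX, h5⟩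
      · right; exact ⟨hnX, hSp, h5⟩
    have hfinU := (((hfin (fun n => XT n)).union (hfin (fun n => 2 ^ a < 24 * n + 3 ∧ XB a y k n))).union
      (hfin (fun n => VL f a k n))).union (hfin (fun n => SpK a y k n ∧ VR e a k n))
    have h6 := Set.ncard_le_ncard hsub hfinU
    have u1 := Set.ncard_union_le ((({n : ℕ | n ≤ X ∧ XT n} ∪
          {n : ℕ | n ≤ X ∧ 2 ^ a < 24 * n + 3 ∧ XB a y k n}) ∪ {n : ℕ | n ≤ X ∧ VL f a k n}))
          {n : ℕ | n ≤ X ∧ (SpK a y k n ∧ VR e a k n)}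
    have u2 := Set.ncard_union_le ({n : ℕ | n ≤ X ∧ XT n} ∪
          {n : ℕ | n ≤ X ∧ 2 ^ a < 24 * n + 3 ∧ XB a y k n}) {n : ℕ | n ≤ X ∧ VL f a k n}
    have u3 := Set.ncard_union_le {n : ℕ | n ≤ X ∧ XT n}
          {n : ℕ | n ≤ X ∧ 2 ^ a < 24 * n + 3 ∧ XB a y k n}
    omega
  have hsum := Finset.sum_le_sum key
  rw [Finset.sum_const, smul_eq_mul, Finset.sum_add_distrib, Finset.sum_add_distrib,
    Finset.sum_const, smul_eq_mul] at hsum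
  omega

end Pool.Agent.TSC
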