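import Pool.Agent.helper67.TSC.Spec

/-!
# Project ts:, LTY3: the pairs with a left value of parity `f`
-/

set_option autoImplicit false

open Finset

noncomputable section

namespace Pool.Agent.TSC

open Pool.Agent.EP

theorem LTY3_tri (r : ℕ) : 2 * tri r = r * (r + 1) := by
  unfold tri
  exact Nat.mul_div_cancel' (Nat.even_mul_succ_self r).two_dvd

theorem LTY3_core {k m s : ℕ} (hk : 1 ≤ k) (hm : 1 ≤ m) (hs : 24 * s = k * (24 * m - 1) + 1) :
    1 ≤ s ∧ s ≤ k * m ∧ 24 * s - 1 = k * (24 * m - 1) ∧ ((24 * s - 1) / k + 1) / 24 = m := by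
  obtain ⟨t, ht⟩ : ∃ t, 24 * m = t + 1 := ⟨24 * m - 1, by omega⟩
  rw [ht, Nat.add_sub_cancel] at hs ⊢
  have h2 : 24 * s - 1 = k * t := by omega
  have h3 : k * (t + 1) = k * t + k := by ring
  have h4 : 24 * (k * m) = k * (24 * m) := by ring
  rw [ht, h3] at h4
  refine ⟨?_, ?_, h2, ?_⟩
  · by_contra hlt
    have : s = 0 := by omega
    subst this
    omega
  · omega
  · rw [h2, Nat.mul_div_cancel_left t hk]
    omega

theorem LTY3 : LTY3_stmt := by
  intro f a K X D hD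
  set Y := 2 * K * (X / 2 ^ a) with hY
  set S : Finset ℕ := {n ∈ range (Y + 1) | Fintype.card (Nat.Partition n) % 2 = f} with hS
  have hSc : #S = sN f Y := rfl
  let T : Finset ((_ : ℕ) × ℕ) := S.sigma (fun s => (24 * s - 1).primeFactors)
  let U : Finset (((_ : ℕ) × ℕ) × ℕ) := T ×ˢ range (Nat.sqrt (2 * X) + 1)
  let φ : ((_ : ℕ) × ℕ) × ℕ → ℕ × ℕ :=
    fun x => (x.1.2, tri x.2 + 2 ^ a * (((24 * x.1.1 - 1) / x.1.2 + 1) / 24))
  have hsub : {x : ℕ × ℕ | x.1 ∈ PM K ∧ x.2 ≤ X ∧ VL f a x.1 x.2} ⊆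
      ((U.image φ : Finset (ℕ × ℕ)) : Set (ℕ × ℕ)) := by
    rintro ⟨k, n⟩ ⟨hk, hn, r, hr, hm, hdvd, hev⟩
    simp only at hk hn hr hm hdvd hev
    unfold PM at hk
    rw [Finset.mem_filter, Finset.mem_Ioc] at hk
    obtain ⟨⟨hk1, hk2⟩, hkp, -⟩ := hk
    unfold rs at hr
    rw [Finset.mem_filter] at hr
    obtain ⟨-, hr1, hr2⟩ := hr
    set m := (n - tri r) / 2 ^ a with hmdef
    obtain ⟨s, hs⟩ := hdvd
    rw [hs, Nat.mul_div_cancel_left s (by norm_num)] at hev
    have hmn : 2 ^ a * m = n - tri r := Nat.mul_div_cancel' hr2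
    have hmX : m ≤ X / 2 ^ a := Nat.div_le_div_right (by omega)
    obtain ⟨c1, c2, c3, c4⟩ := LTY3_core hkp.one_lt.le hm hs.symm
    have hs2 : s ≤ Y := c2.trans (Nat.mul_le_mul hk2 hmX)
    have hrs : r ≤ Nat.sqrt (2 * X) := by
      rw [Nat.le_sqrt]
      have h1 := LTY3_tri r
      have h2 : r * (r + 1) = r * r + r := by ring
      omega
    rw [Finset.coe_image]
    refine ⟨(⟨s, k⟩, r), ?_, ?_⟩
    · rw [Finset.mem_coe, Finset.mem_product, Finset.mem_sigma, Nat.mem_primeFactors,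
        Finset.mem_filter, Finset.mem_range, Finset.mem_range]
      refine ⟨⟨⟨by simp only; omega, hev⟩, hkp, ?_, ?_⟩, by simp only; omega⟩
      · simp only
        rw [c3]
        exact dvd_mul_right _ _
      · simp only
        omega
    · change (k, tri r + 2 ^ a * (((24 * s - 1) / k + 1) / 24)) = (k, n)
      rw [c4, hmn]
      congr 1
      omega
  have hYX : Y ≤ 2 * (K * 2 ^ a * X) := by
    have h1 : X / 2 ^ a ≤ 2 ^ a * X := (Nat.div_le_self _ _).trans (Nat.le_mul_of_pos_left _ (by positivity))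
    have h2 : 2 * K * (X / 2 ^ a) ≤ 2 * K * (2 ^ a * X) := Nat.mul_le_mul_left _ h1
    have h3 : 2 * K * (2 ^ a * X) = 2 * (K * 2 ^ a * X) := by ring
    rw [hY]
    omega
  have hcard : #U ≤ D * (Nat.sqrt (2 * X) + 1) * sN f Y := by
    have h1 : #T ≤ sN f Y * D := by
      rw [Finset.card_sigma, ← hSc, ← smul_eq_mul]
      refine Finset.sum_le_card_nsmul _ _ _ fun s hs => ?_
      rcases Nat.eq_zero_or_pos s with rfl | hs0
      · simp
      · refine hD _ (by omega) ?_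
        have h2 := (Finset.mem_filter.1 hs).1
        rw [Finset.mem_range] at h2
        omega
    calc #U = #T * (Nat.sqrt (2 * X) + 1) := by rw [Finset.card_product, Finset.card_range]
      _ ≤ sN f Y * D * (Nat.sqrt (2 * X) + 1) := Nat.mul_le_mul_right _ h1
      _ = D * (Nat.sqrt (2 * X) + 1) * sN f Y := by ring
  calc Set.ncard {x : ℕ × ℕ | x.1 ∈ PM K ∧ x.2 ≤ X ∧ VL f a x.1 x.2}
      ≤ Set.ncard ((U.image φ : Finset (ℕ × ℕ)) : Set (ℕ × ℕ)) :=
        Set.ncard_le_ncard hsub (Finset.finite_toSet _)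
    _ = #(U.image φ) := Set.ncard_coe_finset _
    _ ≤ #U := Finset.card_image_le
    _ ≤ D * (Nat.sqrt (2 * X) + 1) * sN f Y := hcard

end Pool.Agent.TSC
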